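import Pool.Agent.T9h44.LG.Spec2

/-!
The piece (FU): Fubini and the change of variables `c_i = 1/(4 g_i)`.
-/

set_option autoImplicit false

namespace Pool.Agent.T9h81.LG

open MeasureTheory Real Pool.Agent.T9h44.LG Pool.Agent.T9h44.LS4
open scoped ENNReal

/-- monotonicity of the product measures -/
theorem pi_mono {ι : Type*} [Fintype ι] {X : ι → Type*} [∀ i, MeasurableSpace (X i)]
    {μ ν : ∀ i, Measure (X i)} [∀ i, SigmaFinite (μ i)] [∀ i, SigmaFinite (ν i)]
    (h : ∀ i, μ i ≤ ν i) : Measure.pi μ ≤ Measure.pi ν := by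
  rw [Measure.le_iff]
  intro s hs
  rw [Measure.pi, Measure.pi, toMeasure_apply _ _ hs, toMeasure_apply _ _ hs]
  have h1 : OuterMeasure.pi (fun i => (μ i).toOuterMeasure) ≤
      OuterMeasure.pi (fun i => (ν i).toOuterMeasure) := by
    rw [OuterMeasure.le_pi]
    intro t _
    refine (OuterMeasure.pi_pi_le _ t).trans ?_
    exact Finset.prod_le_prod' fun i _ => h i (t i)
  exact h1 s

/-- one variable -/
theorem one_var : (volume.restrict (Set.Icc (1 : ℝ) 2)).map (fun g : ℝ => 1 / (4 * g)) ≤
    (16 : ℝ≥0∞) • volume.restrict (Set.Icc (1 / 8 : ℝ) (1 / 4)) := by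
  have hm : Measurable (fun g : ℝ => 1 / (4 * g)) := by fun_prop
  rw [Measure.le_iff]
  intro s hs
  rw [Measure.map_apply hm hs, Measure.restrict_apply (hm hs), Measure.smul_apply,
    Measure.restrict_apply hs, smul_eq_mul]
  obtain ⟨t, ht⟩ : ∃ t, t = s ∩ Set.Icc (1 / 8 : ℝ) (1 / 4) := ⟨_, rfl⟩
  have htm : MeasurableSet t := by rw [ht]; exact hs.inter measurableSet_Icc
  have himg : (fun g : ℝ => 1 / (4 * g)) ⁻¹' s ∩ Set.Icc (1 : ℝ) 2 ⊆
      (fun g : ℝ => 1 / (4 * g)) '' t := by
    rintro g ⟨h1, h2, h3⟩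
    have hg : 0 < g := by linarith
    refine ⟨1 / (4 * g), ?_, ?_⟩
    · rw [ht]
      refine ⟨h1, ?_, ?_⟩
      · rw [div_le_div_iff₀ (by norm_num) (by linarith)]
        linarith
      · rw [div_le_div_iff₀ (by linarith) (by norm_num)]
        linarith
    · simp only
      field_simp
  have hpos : ∀ x ∈ t, 1 / 8 ≤ x := fun x hx => by
    rw [ht] at hx
    exact hx.2.1
  have h := lintegral_image_eq_lintegral_abs_deriv_mul (f := fun g : ℝ => 1 / (4 * g))
    (f' := fun x => -(1 / (4 * x ^ 2))) htm (fun x hx => by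
      have hx0 : x ≠ 0 := by
        have := hpos x hx
        intro h
        rw [h] at this
        norm_num at this
      have h1 : HasDerivAt (fun g : ℝ => (4 * g)⁻¹) (-(4 * 1) / (4 * x) ^ 2) x :=
        ((hasDerivAt_id x).const_mul 4).inv (by simpa using hx0)
      have h2 : (fun g : ℝ => 1 / (4 * g)) = fun g : ℝ => (4 * g)⁻¹ := by
        funext g
        rw [one_div]
      rw [h2]
      refine (h1.congr_deriv ?_).hasDerivWithinAt
      field_simp
      ) (fun x hx y hy hxy => by
      have h1 := hpos x hx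
      have h2 := hpos y hy
      simp only at hxy
      have hx0 : x ≠ 0 := by linarith
      have hy0 : y ≠ 0 := by linarith
      field_simp at hxy
      linarith) (fun _ => 1)
  rw [setLIntegral_one] at h
  calc volume ((fun g : ℝ => 1 / (4 * g)) ⁻¹' s ∩ Set.Icc (1 : ℝ) 2)
      ≤ volume ((fun g : ℝ => 1 / (4 * g)) '' t) := measure_mono himg
    _ = ∫⁻ x in t, ENNReal.ofReal (|-(1 / (4 * x ^ 2))|) * 1 := h
    _ ≤ ∫⁻ x in t, 16 := by
        refine setLIntegral_mono' htm fun x hx => ?_
        rw [mul_one]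
        have h1 := hpos x hx
        rw [abs_neg, abs_of_nonneg (by positivity)]
        have h3 : (1 : ℝ) / (4 * x ^ 2) ≤ 16 := by
          rw [div_le_iff₀ (by nlinarith)]
          nlinarith
        calc ENNReal.ofReal (1 / (4 * x ^ 2)) ≤ ENNReal.ofReal 16 := ENNReal.ofReal_le_ofReal h3
          _ = 16 := by norm_num
    _ = 16 * volume t := setLIntegral_const _ _
    _ = _ := by rw [ht]

theorem s_fu (n : ℕ) : S_fu n := by
  intro f j B hf hB
  obtain ⟨ν, hν⟩ : ∃ ν : Measure ℝ, ν = volume.restrict (Set.Icc (1 / 8 : ℝ) (1 / 4)) := ⟨_, rfl⟩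
  obtain ⟨κ, hκ⟩ : ∃ κ : Measure ℝ, κ = volume.restrict (Set.Icc (-4 : ℝ) 4) := ⟨_, rfl⟩
  have : IsFiniteMeasure ν := by rw [hν]; infer_instance
  have : IsFiniteMeasure κ := by rw [hκ]; infer_instance
  have hνκ : ν ≤ κ := by
    rw [hν, hκ]
    exact Measure.restrict_mono (Set.Icc_subset_Icc (by norm_num) (by norm_num)) le_rfl
  have hκu : κ Set.univ = 8 := by
    rw [hκ, Measure.restrict_apply_univ, Real.volume_Icc]
    norm_num
  have hνu : ν Set.univ ≤ 1 := by
    rw [hν, Measure.restrict_apply_univ, Real.volume_Icc]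
    norm_num
  -- the change of variables
  have hbox : box n = Set.univ.pi (fun _ : Fin n => Set.Icc (1 : ℝ) 2) := by
    ext g
    exact ⟨fun h i _ => h i, fun h i => h i (Set.mem_univ i)⟩
  have hcube : cubeC n = Set.univ.pi (fun _ : Fin n => Set.Icc (-4 : ℝ) 4) := by
    ext g
    exact ⟨fun h i _ => h i, fun h i => h i (Set.mem_univ i)⟩
  have hm : Measurable (fun g : ℝ => 1 / (4 * g)) := by fun_prop
  have hmn : Measurable (fun (g : Fin n → ℝ) (i : Fin n) => 1 / (4 * g i)) := by fun_prop
  have : IsFiniteMeasure ((volume.restrict (Set.Icc (1 : ℝ) 2)).map (fun g : ℝ => 1 / (4 * g))) :=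
    Measure.isFiniteMeasure_map _ _
  have e1 : ∫⁻ g in box n, f (fun i => 1 / (4 * g i)) =
      ∫⁻ c, f c ∂Measure.pi (fun _ : Fin n =>
        (volume.restrict (Set.Icc (1 : ℝ) 2)).map (fun g : ℝ => 1 / (4 * g))) := by
    rw [hbox, volume_pi, Measure.restrict_pi_pi,
      ← Measure.pi_map_pi (fun _ => hm.aemeasurable), lintegral_map hf hmn]
  have e2 : Measure.pi (fun _ : Fin n => (16 : ℝ≥0∞) • ν) =
      (16 : ℝ≥0∞) ^ n • Measure.pi (fun _ : Fin n => ν) := by
    have : SigmaFinite ((16 : ℝ≥0∞) • ν) := by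
      have := Measure.smul_finite ν (show (16 : ℝ≥0∞) ≠ ⊤ by norm_num)
      infer_instance
    refine Measure.pi_eq fun s _ => ?_
    rw [Measure.smul_apply, Measure.pi_pi]
    simp only [Measure.smul_apply, smul_eq_mul]
    rw [Finset.prod_mul_distrib, Finset.prod_const, Finset.card_univ, Fintype.card_fin]
  have e3 : Measure.pi (fun _ : Fin n =>
      (volume.restrict (Set.Icc (1 : ℝ) 2)).map (fun g : ℝ => 1 / (4 * g))) ≤
      (16 : ℝ≥0∞) ^ n • Measure.pi (fun _ : Fin n => ν) := by
    rw [← e2]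
    have : SigmaFinite ((16 : ℝ≥0∞) • ν) := by
      have := Measure.smul_finite ν (show (16 : ℝ≥0∞) ≠ ⊤ by norm_num)
      infer_instance
    exact pi_mono fun _ => by rw [hν]; exact one_var
  -- the update
  obtain ⟨κ', hκ'⟩ : ∃ κ' : Fin n → Measure ℝ, κ' = Function.update (fun _ => κ) j ν := ⟨_, rfl⟩
  have hsf : ∀ i, SigmaFinite (κ' i) := by
    intro i
    rw [hκ']
    by_cases h : i = j
    · subst h
      rw [Function.update_self]
      infer_instance
    · rw [Function.update_of_ne h]
      infer_instance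
  have hle : Measure.pi (fun _ : Fin n => ν) ≤ Measure.pi κ' := by
    refine pi_mono fun i => ?_
    rw [hκ']
    by_cases h : i = j
    · subst h
      rw [Function.update_self]
    · rw [Function.update_of_ne h]
      exact hνκ
  have hmu : Measurable (fun p : ℝ × (Fin n → ℝ) => Function.update p.2 j p.1) :=
    measurable_update'.comp measurable_swap
  have e4 : Measure.pi κ' = ((8 : ℝ≥0∞)⁻¹) •
      (ν.prod (Measure.pi (fun _ : Fin n => κ))).map
        (fun p : ℝ × (Fin n → ℝ) => Function.update p.2 j p.1) := by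
    refine Measure.pi_eq fun s hs => ?_
    rw [Measure.smul_apply, Measure.map_apply hmu (MeasurableSet.univ_pi hs)]
    have h1 : (fun p : ℝ × (Fin n → ℝ) => Function.update p.2 j p.1) ⁻¹' (Set.univ.pi s) =
        s j ×ˢ (Set.univ.pi (Function.update s j Set.univ)) := by
      ext ⟨b, c⟩
      simp only [Set.mem_preimage, Set.mem_pi, Set.mem_univ, forall_true_left, Set.mem_prod]
      constructor
      · intro h
        refine ⟨by simpa using h j, fun i => ?_⟩
        by_cases hi : i = j
        · subst hi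
          simp
        · have := h i
          rw [Function.update_of_ne hi] at this ⊢
          exact this
      · rintro ⟨h2, h3⟩ i
        by_cases hi : i = j
        · subst hi
          simpa using h2
        · have := h3 i
          rw [Function.update_of_ne hi] at this ⊢
          exact this
    rw [h1, Measure.prod_prod, Measure.pi_pi, smul_eq_mul]
    have h2 : ∏ i, κ (Function.update s j Set.univ i) =
        8 * ∏ i ∈ Finset.univ.erase j, κ (s i) := by
      rw [← Finset.mul_prod_erase _ _ (Finset.mem_univ j), Function.update_self, hκu]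
      congr 1
      refine Finset.prod_congr rfl fun i hi => ?_
      rw [Function.update_of_ne (Finset.ne_of_mem_erase hi)]
    have h3 : ∏ i, κ' i (s i) = ν (s j) * ∏ i ∈ Finset.univ.erase j, κ (s i) := by
      rw [← Finset.mul_prod_erase _ _ (Finset.mem_univ j), hκ', Function.update_self]
      congr 1
      refine Finset.prod_congr rfl fun i hi => ?_
      rw [Function.update_of_ne (Finset.ne_of_mem_erase hi)]
    rw [h2, h3]
    rw [mul_left_comm (ν (s j)), ← mul_assoc (8 : ℝ≥0∞)⁻¹,
      ENNReal.inv_mul_cancel (by norm_num) (by norm_num), one_mul]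
  have e5 : ∫⁻ c, f c ∂Measure.pi κ' ≤ B := by
    have hfm : Measurable (fun p : ℝ × (Fin n → ℝ) => f (Function.update p.2 j p.1)) :=
      hf.comp hmu
    rw [e4, lintegral_smul_measure, lintegral_map hf hmu, smul_eq_mul,
      lintegral_prod _ hfm.aemeasurable]
    have h1 : ∀ b ∈ Set.Icc (1 / 8 : ℝ) (1 / 4),
        ∫⁻ c, f (Function.update c j b) ∂Measure.pi (fun _ : Fin n => κ) ≤ B := by
      intro b hb
      have h2 := hB b hb
      rwa [hcube, volume_pi, Measure.restrict_pi_pi, ← hκ] at h2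
    calc (8 : ℝ≥0∞)⁻¹ * ∫⁻ b, ∫⁻ c, f (Function.update c j b)
          ∂Measure.pi (fun _ : Fin n => κ) ∂ν
        ≤ 1 * ∫⁻ b, B ∂ν := by
          refine mul_le_mul' (by norm_num) ?_
          rw [hν]
          exact setLIntegral_mono' measurableSet_Icc h1
      _ = B * ν Set.univ := by rw [one_mul, lintegral_const]
      _ ≤ B * 1 := by gcongr
      _ = B := mul_one B
  calc ∫⁻ g in box n, f (fun i => 1 / (4 * g i))
      = _ := e1
    _ ≤ ∫⁻ c, f c ∂((16 : ℝ≥0∞) ^ n • Measure.pi (fun _ : Fin n => ν)) := lintegral_mono' e3 le_rfl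
    _ = 16 ^ n * ∫⁻ c, f c ∂(Measure.pi (fun _ : Fin n => ν)) := by
        rw [lintegral_smul_measure, smul_eq_mul]
    _ ≤ 16 ^ n * ∫⁻ c, f c ∂(Measure.pi κ') := by
        gcongr
    _ ≤ 16 ^ n * B := by gcongr

end Pool.Agent.T9h81.LG
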