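import Pool.Agent.T9h44.LG.Spec4
import Pool.Agent.T9h81.LG.Fu

/-!
The piece (FUI): Fubini and the change of variables `c_i = 1/(4 g_i)` in the variables of `I`.
-/

set_option autoImplicit false

namespace Pool.Agent.T9h81.LG

open MeasureTheory Real Pool.Agent.T9h44.LG Pool.Agent.T9h44.LS4 Pool.Agent.T9h44.LS5
open scoped ENNReal

theorem s_fuI (n : ℕ) : S_fuI n := by
  intro f I j B hf g₀ hg₀ hB
  obtain ⟨b₀, hb₀⟩ : ∃ b₀ : Fin n → ℝ, b₀ = fun i => 1 / (4 * g₀ i) := ⟨_, rfl⟩
  have hb : ∀ i, b₀ i ∈ Set.Icc (1 / 8 : ℝ) (1 / 4) := by
    intro i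
    have h := hg₀ i
    have h1 : 1 ≤ g₀ i := h.1
    have h2 : g₀ i ≤ 2 := h.2
    rw [hb₀]
    refine ⟨?_, ?_⟩
    · rw [div_le_div_iff₀ (by norm_num) (by linarith)]
      linarith
    · rw [div_le_div_iff₀ (by linarith) (by norm_num)]
      linarith
  have hmm : Measurable (fun c : Fin n → ℝ => mix I b₀ c) := by
    refine measurable_pi_lambda _ fun i => ?_
    unfold mix
    by_cases h : i ∈ I
    · simp only [h, if_true]
      exact measurable_pi_apply i
    · simp only [h, if_false]
      exact measurable_const
  have key := s_fu n (fun c => f (mix I b₀ c)) j B (hf.comp hmm) (fun b hbb => by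
    by_cases hj : j ∈ I
    · have h1 : ∀ c : Fin n → ℝ, mix I b₀ (Function.update c j b) =
          mix (I.erase j) (Function.update b₀ j b) c := by
        intro c
        funext i
        unfold mix
        by_cases hi : i = j
        · subst hi
          simp [hj]
        · simp [hi]
      simp only [h1]
      refine hB _ fun i => ?_
      by_cases hi : i = j
      · subst hi
        rw [Function.update_self]
        exact hbb
      · rw [Function.update_of_ne hi]
        exact hb i
    · have h1 : ∀ c : Fin n → ℝ, mix I b₀ (Function.update c j b) =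
          mix (I.erase j) b₀ c := by
        intro c
        funext i
        unfold mix
        rw [Finset.erase_eq_of_notMem hj]
        by_cases hi : i = j
        · subst hi
          simp [hj]
        · rw [Function.update_of_ne hi]
      simp only [h1]
      exact hB _ hb)
  refine le_trans (le_of_eq ?_) key
  refine lintegral_congr fun g => ?_
  refine congrArg f ?_
  funext i
  rw [hb₀]
  unfold mix
  by_cases hi : i ∈ I
  · simp [hi]
  · simp [hi]

end Pool.Agent.T9h81.LG
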